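import Mathlib
import Pool.Agent.TH130.FP.Dual

/-!
# Powers of general linear forms in three variables, from the uniform SHGH statement

By apolarity the Hilbert function in degree `k` of the quotient of `ℂ[x, y, z]` by the `d`-th powers
of `r` linear forms is, for `k ≥ d`, the dimension of the space of plane curves of degree `k` with
multiplicity `k + 1 - d` at the `r` points of the dual plane given by the forms.  We show that the
expected dimension for `r` general points and all the multiplicities `m ≤ d` gives the formula of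
Fröberg and Iarrobino for `r` general forms in three variables and the exponent `d`.
-/

set_option autoImplicit false
set_option linter.unusedSectionVars false

namespace Pool.Agent.TH750.FI3

open Module MvPolynomial H350MG

noncomputable section

/-- the ideal of the point `(a : b : 1)` -/
abbrev ptI (a b : ℂ) : Ideal (MvPolynomial (Fin 3) ℂ) :=
  Ideal.span ({X 0 - C a * X 2, X 1 - C b * X 2} : Set (MvPolynomial (Fin 3) ℂ))

lemma ptI_le (a b : ℂ) : ptI a b ≤ pointIdeal ![a, b, 1] := by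
  refine Ideal.span_le.2 ?_
  intro F hF
  rcases hF with rfl | hF
  · intro t
    simp
    ring
  · rw [Set.mem_singleton_iff] at hF
    subst hF
    intro t
    simp
    ring

lemma le_ptI (a b : ℂ) : pointIdeal ![a, b, 1] ≤ ptI a b := by
  intro F h
  rw [mem_pointIdeal_iff_lineRes] at h
  have h1 : Ideal.Quotient.mkₐ ℂ (ptI a b) = (Ideal.Quotient.mkₐ ℂ (ptI a b)).comp
      ((Polynomial.aeval (X 2 : MvPolynomial (Fin 3) ℂ)).comp (lineRes ![a, b, 1])) := by
    apply MvPolynomial.algHom_ext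
    intro i
    rw [AlgHom.comp_apply, AlgHom.comp_apply]
    have h2 : lineRes ![a, b, 1] (X i : MvPolynomial (Fin 3) ℂ) =
        Polynomial.C ((![a, b, 1] : Fin 3 → ℂ) i) * Polynomial.X := by
      unfold lineRes; rw [aeval_X]
    rw [h2, map_mul, Polynomial.aeval_C, Polynomial.aeval_X, MvPolynomial.algebraMap_eq]
    change Ideal.Quotient.mk _ _ = Ideal.Quotient.mk _ _
    rw [Ideal.Quotient.mk_eq_mk_iff_sub_mem]
    fin_cases i
    · exact Ideal.subset_span (Or.inl rfl)
    · exact Ideal.subset_span (Or.inr rfl)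
    · simp
  have h3 := congrArg (fun φ : MvPolynomial (Fin 3) ℂ →ₐ[ℂ] _ => φ F) h1
  simp only [AlgHom.comp_apply, h, map_zero] at h3
  exact Ideal.Quotient.eq_zero_iff_mem.1 h3

lemma pointIdeal_eq (a b : ℂ) : pointIdeal ![a, b, 1] = ptI a b :=
  le_antisymm (le_ptI a b) (ptI_le a b)

/-- the points of the plane with last coordinate one -/
def lift3 {r : ℕ} (P : Fin r → Fin 2 → ℂ) : Fin r × Fin 3 → ℂ :=
  fun p => (![P p.1 0, P p.1 1, 1] : Fin 3 → ℂ) p.2

lemma K_eq {r : ℕ} (P : Fin r → Fin 2 → ℂ) {d k : ℕ} (hk : d ≤ k + 1) :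
    K (ptList (fun _ => d) (lift3 P)) k = homogeneousSubmodule (Fin 3) ℂ k ⊓
      Submodule.restrictScalars ℂ (⨅ i : Fin r, (ptI (P i 0) (P i 1)) ^ (k + 1 - d)) := by
  ext F
  rw [mem_K, Submodule.mem_inf, Submodule.restrictScalars_mem, Submodule.mem_iInf]
  refine and_congr_right fun hF => ?_
  have key : ∀ i : Fin r, (D (fun j => lift3 P (i, j)) ^ d) F = 0 ↔
      F ∈ (ptI (P i 0) (P i 1)) ^ (k + 1 - d) := by
    intro i
    have hv : (fun j => lift3 P (i, j)) = (![P i 0, P i 1, 1] : Fin 3 → ℂ) := rfl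
    rw [hv, ← pointIdeal_eq]
    have hne : (![P i 0, P i 1, 1] : Fin 3 → ℂ) ≠ 0 := by
      intro h
      have := congrFun h 2
      simp at this
    have h2 := mem_pow_iff hne (d := k) (m := k + 1 - d) (by omega) hF
    rw [h2]
    have h3 : k + 1 - (k + 1 - d) = d := by omega
    rw [h3]
  constructor
  · intro h i
    have h1 := h _ (mem_ptList (e := fun _ => d) (lift3 P) i)
    exact (key i).1 h1
  · intro h c hc
    obtain ⟨i, hi⟩ := exists_of_mem_ptList hc
    have h1 := (key i).2 (h i)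
    have h2 : c.1 = fun j => lift3 P (i, j) := by rw [hi]
    have h3 : c.2 = d := by rw [hi]
    rw [h2, h3]
    exact h1

/-- the vanishing persists upwards -/
lemma K_succ_bot {l : List ((Fin 3 → ℂ) × ℕ)} {k : ℕ} (h : K l k = ⊥) : K l (k + 1) = ⊥ := by
  rw [eq_bot_iff]
  intro F hF
  have h1 : ∀ i, pderiv i F = 0 := by
    intro i
    have h2 : pderiv i F ∈ K l k := by
      refine ⟨by simpa using pderiv_hom (i := i) hF.1, ?_⟩
      intro c hc
      rw [← pderiv_Dpow, hF.2 c hc, map_zero]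
    rw [h, Submodule.mem_bot] at h2
    exact h2
  have h3 : ∑ i : Fin 3, X i * pderiv i F = (k + 1) • F := by
    have := hF.1
    rw [mem_homogeneousSubmodule] at this
    exact this.sum_X_mul_pderiv
  rw [Finset.sum_eq_zero (fun i _ => by rw [h1 i, mul_zero])] at h3
  rw [Submodule.mem_bot]
  have h4 := h3.symm
  rw [smul_eq_zero] at h4
  rcases h4 with h4 | h4
  · omega
  · exact h4

lemma K_bot_of_le {l : List ((Fin 3 → ℂ) × ℕ)} {k k' : ℕ} (h : K l k = ⊥) (hk : k ≤ k') :
    K l k' = ⊥ := by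
  induction k', hk using Nat.le_induction with
  | base => exact h
  | succ k' _ ih => exact K_succ_bot ih

lemma finrank_K_zero {l : List ((Fin 3 → ℂ) × ℕ)} {k k' : ℕ} (h : finrank ℂ (K l k) = 0)
    (hk : k ≤ k') : finrank ℂ (K l k') = 0 := by
  have h1 : K l k = ⊥ := Submodule.finrank_eq_zero.1 h
  rw [K_bot_of_le h1 hk]
  exact finrank_bot _ _

lemma gj3 (j : ℕ) : gj (Fin 3) j = ((j + 2).choose 2 : ℕ) := by
  unfold gj
  rw [Fintype.card_fin]
  have h1 : 3 + j - 1 = j + 2 := by omega
  rw [h1]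
  congr 1
  rw [← Nat.choose_symm_add]

/-- the coefficients in degrees below `2 d` -/
lemma c_small {r d : ℕ} (hr : 1 ≤ r) {c : ℕ → ℤ}
    (hc : ∀ m : ℕ, c m = ∑ i ∈ Finset.range (r + 1),
          (if d * i ≤ m then
            (-1 : ℤ) ^ i * (r.choose i : ℤ) * (((m - d * i + 3 - 1).choose (3 - 1) : ℕ) : ℤ)
          else 0)) {m : ℕ} (hm : m < 2 * d) :
    c m = ((m + 2).choose 2 : ℕ) - (if d ≤ m then (r : ℤ) * ((m - d + 2).choose 2 : ℕ) else 0) := by
  rw [hc m]
  obtain ⟨s, rfl⟩ : ∃ s, r = s + 1 := ⟨r - 1, by omega⟩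
  rw [Finset.sum_range_succ', Finset.sum_range_succ']
  have h0 : ∑ k ∈ Finset.range s, (if d * (k + 1 + 1) ≤ m then
            (-1 : ℤ) ^ (k + 1 + 1) * ((s + 1).choose (k + 1 + 1) : ℤ) *
              (((m - d * (k + 1 + 1) + 3 - 1).choose (3 - 1) : ℕ) : ℤ)
          else 0) = 0 := by
    refine Finset.sum_eq_zero fun k _ => ?_
    rw [if_neg]
    intro h
    have : d * 2 ≤ d * (k + 1 + 1) := Nat.mul_le_mul_left _ (by omega)
    omega
  rw [h0]
  have e1 : m - d * (0 + 1) + 3 - 1 = m - d + 2 := by rw [zero_add, mul_one]; omega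
  have e2 : m - d * 0 + 3 - 1 = m + 2 := by rw [mul_zero]; omega
  rw [e1, e2]
  by_cases hd : d ≤ m
  · rw [if_pos (by simpa using hd), if_pos (by simp), if_pos hd]
    simp
    ring
  · rw [if_neg (by simpa using hd), if_pos (by simp), if_neg hd]
    simp

lemma choose_two_bound {r d : ℕ} (hr : 4 ≤ r) (hd : 1 ≤ d) :
    (2 * d - 1 + 2).choose 2 ≤ r * (2 * d - 1 - d + 2).choose 2 := by
  have h1 : 2 * d - 1 + 2 = 2 * d + 1 := by omega
  have h2 : 2 * d - 1 - d + 2 = d + 1 := by omega
  rw [h1, h2]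
  have h3 : (2 * d + 1).choose 2 = d * (2 * d + 1) := by
    rw [Nat.choose_two_right]
    have : (2 * d + 1) * (2 * d + 1 - 1) = (d * (2 * d + 1)) * 2 := by
      rw [Nat.add_sub_cancel]; ring
    rw [this, Nat.mul_div_cancel _ (by norm_num)]
  have h4 : 2 * (d + 1).choose 2 = d * (d + 1) := by
    rw [Nat.choose_two_right]
    have h5 : Even ((d + 1) * (d + 1 - 1)) := by
      rw [Nat.add_sub_cancel, mul_comm]; exact Nat.even_mul_succ_self d
    rw [Nat.two_mul_div_two_of_even h5, Nat.add_sub_cancel]; ring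
  rw [h3]
  calc d * (2 * d + 1) ≤ 2 * (d * (d + 1)) := by nlinarith
    _ = 4 * (d + 1).choose 2 := by rw [← h4]; ring
    _ ≤ r * (d + 1).choose 2 := Nat.mul_le_mul_right _ hr

/-- exact values in degrees below `2 d` -/
lemma exact {r : ℕ} {d : ℕ} {a0 : Fin r → Fin 2 → ℂ}
    (hP0 : ∀ k, d ≤ k → k < 2 * d → finrank ℂ (K (ptList (fun _ => d) (lift3 a0)) k) =
      (k + 2).choose 2 - r * (k - d + 2).choose 2)
    {P : Fin r × Fin 3 → ℂ}
    (hP : ∀ j < 2 * d, finrank ℂ (K (ptList (fun _ => d) P) j) ≤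
      finrank ℂ (K (ptList (fun _ => d) (lift3 a0)) j)) {j : ℕ} (hj : j < 2 * d) :
    finrank ℂ (K (ptList (fun _ => d) P) j) =
      (j + 2).choose 2 - (if d ≤ j then r * (j - d + 2).choose 2 else 0) := by
  have h1 := finrank_K_ge (ptList (fun _ => d) P) j
  have h2 : (ptList (fun _ : Fin r => d) P).map Prod.snd = List.ofFn fun _ : Fin r => d := by
    unfold ptList; rw [List.map_ofFn]; rfl
  rw [h2, sm_ofFn, gj3, Finset.sum_const, Finset.card_univ, Fintype.card_fin, nsmul_eq_mul] at h1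
  by_cases hd : d ≤ j
  · rw [if_pos hd] at h1 ⊢
    rw [gj3] at h1
    have h3 := hP j hj
    rw [hP0 j hd hj] at h3
    refine le_antisymm h3 ?_
    rw [tsub_le_iff_right]
    have : (((j + 2).choose 2 : ℕ) : ℤ) ≤
      ((finrank ℂ (K (ptList (fun _ => d) P) j) + r * (j - d + 2).choose 2 : ℕ) : ℤ) := by
      push_cast
      linarith
    exact_mod_cast this
  · rw [if_neg hd] at h1 ⊢
    have h3 := finrank_K_le (ptList (fun _ => d) P) j
    rw [gj3] at h3
    rw [mul_zero, sub_zero] at h1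
    have h4 : (finrank ℂ (K (ptList (fun _ => d) P) j) : ℤ) = ((j + 2).choose 2 : ℕ) :=
      le_antisymm h3 h1
    rw [tsub_zero]
    exact_mod_cast h4

/-- the formula of Fröberg and Iarrobino in three variables, from the expected dimension of the
uniform systems of plane curves for all the multiplicities `m ≤ d` -/
theorem main {r : ℕ} (hr : 4 ≤ r) {d : ℕ} (hd : 1 ≤ d)
    (H : ∀ m, 1 ≤ m → m ≤ d → ∃ F : MvPolynomial (Fin r × Fin 2) ℂ, F ≠ 0 ∧
      ∀ P : Fin r → Fin 2 → ℂ, eval (fun ij : Fin r × Fin 2 => P ij.1 ij.2) F ≠ 0 →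
        ∀ k : ℕ, finrank ℂ ↥(homogeneousSubmodule (Fin 3) ℂ k ⊓
          Submodule.restrictScalars ℂ (⨅ i : Fin r, (ptI (P i 0) (P i 1)) ^ m)) =
            (k + 2).choose 2 - r * (m + 1).choose 2)
    {c : ℕ → ℤ}
    (hc : ∀ m : ℕ, c m = ∑ i ∈ Finset.range (r + 1),
          (if d * i ≤ m then
            (-1 : ℤ) ^ i * (r.choose i : ℤ) * (((m - d * i + 3 - 1).choose (3 - 1) : ℕ) : ℤ)
          else 0)) :
    ∃ P : MvPolynomial (Fin r × Fin 3) ℂ, P ≠ 0 ∧
      ∀ a : Fin r → Fin 3 → ℂ,
        MvPolynomial.eval (fun p : Fin r × Fin 3 => a p.1 p.2) P ≠ 0 →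
        ∀ j : ℕ,
          ((Module.finrank ℂ (MvPolynomial.homogeneousSubmodule (Fin 3) ℂ j) : ℕ) : ℤ) -
            ((Module.finrank ℂ
              ↥((Submodule.restrictScalars ℂ
                  (Ideal.span (Set.range (fun k : Fin r =>
                    (∑ i : Fin 3, MvPolynomial.C (a k i) * MvPolynomial.X i) ^ d)))) ⊓
                MvPolynomial.homogeneousSubmodule (Fin 3) ℂ j) : ℕ) : ℤ)
          = (if (∀ m : ℕ, m ≤ j → 0 < c m) then c j else 0) := by
  classical
  choose! F hF0 hF using H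
  -- one configuration of points good for all the multiplicities
  obtain ⟨x, hx⟩ : ∃ x : Fin r × Fin 2 → ℂ, eval x (∏ m ∈ Finset.Icc 1 d, F m) ≠ 0 := by
    by_contra hcon
    push Not at hcon
    have h1 : (∏ m ∈ Finset.Icc 1 d, F m) = 0 := by
      apply MvPolynomial.funext
      intro x; rw [hcon x, map_zero]
    rw [Finset.prod_eq_zero_iff] at h1
    obtain ⟨m, hm, h1⟩ := h1
    rw [Finset.mem_Icc] at hm
    exact hF0 m hm.1 hm.2 h1
  rw [map_prod, Finset.prod_ne_zero_iff] at hx
  set a0 : Fin r → Fin 2 → ℂ := fun i j => x (i, j) with ha0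
  have hP0 : ∀ k, d ≤ k → k < 2 * d → finrank ℂ (K (ptList (fun _ => d) (lift3 a0)) k) =
      (k + 2).choose 2 - r * (k - d + 2).choose 2 := by
    intro k hk1 hk2
    rw [K_eq a0 (by omega)]
    have h1 := hF (k + 1 - d) (by omega) (by omega) a0
      (hx (k + 1 - d) (Finset.mem_Icc.2 ⟨by omega, by omega⟩)) k
    rw [h1]
    have h2 : k + 1 - d + 1 = k - d + 2 := by omega
    rw [h2]
  obtain ⟨Φ, hΦ0, hΦ⟩ := generic_K_all (σ := Fin 3) (fun _ : Fin r => d) (2 * d - 1) (lift3 a0)
  refine ⟨Φ, hΦ0, ?_⟩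
  intro a ha j
  have hN : ∀ j, j < 2 * d → finrank ℂ (K (ptList (fun _ => d) fun p : Fin r × Fin 3 => a p.1 p.2) j) =
      (j + 2).choose 2 - (if d ≤ j then r * (j - d + 2).choose 2 else 0) := by
    intro j hj
    exact exact hP0 (fun i hi => hΦ _ ha i (by omega)) hj
  -- the left-hand side is the dimension of the space of the killed forms
  have hL : ((Module.finrank ℂ (MvPolynomial.homogeneousSubmodule (Fin 3) ℂ j) : ℕ) : ℤ) -
            ((Module.finrank ℂ
              ↥((Submodule.restrictScalars ℂ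
                  (Ideal.span (Set.range (fun k : Fin r =>
                    (∑ i : Fin 3, MvPolynomial.C (a k i) * MvPolynomial.X i) ^ d)))) ⊓
                MvPolynomial.homogeneousSubmodule (Fin 3) ℂ j) : ℕ) : ℤ) =
      (finrank ℂ (K (ptList (fun _ => d) fun p : Fin r × Fin 3 => a p.1 p.2) j) : ℤ) := by
    rw [← Pool.Agent.TH130.FP.qd_powList]
    have h3 : (fun k : Fin r => (∑ i : Fin 3, MvPolynomial.C (a k i) * X i :
        MvPolynomial (Fin 3) ℂ) ^ d) =
        fun k : Fin r => lin (fun i => (fun p : Fin r × Fin 3 => a p.1 p.2) (k, i)) ^ d := by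
      funext s
      unfold lin
      simp only [smul_eq_C_mul]
    have h4 : fList (fun _ : Fin r => d)
        (fun k : Fin r => lin (fun i => (fun p : Fin r × Fin 3 => a p.1 p.2) (k, i)) ^ d) =
        powList (fun _ : Fin r => d) (fun p : Fin r × Fin 3 => a p.1 p.2) := rfl
    have h2 := span_inf_eq (d := fun _ : Fin r => d)
      (f := fun k : Fin r => lin (fun i => (fun p : Fin r × Fin 3 => a p.1 p.2) (k, i)) ^ d)
      (fun k => linpow_hom _ _) j
    unfold qd
    rw [h3, h2, h4]
    congr 1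
    exact finrank_Rj' j
  rw [hL]
  have h2d : finrank ℂ (K (ptList (fun _ => d) fun p : Fin r × Fin 3 => a p.1 p.2) (2 * d - 1)) = 0 := by
    rw [hN (2 * d - 1) (by omega), if_pos (by omega)]
    exact Nat.sub_eq_zero_of_le (choose_two_bound hr hd)
  by_cases hall : ∀ m : ℕ, m ≤ j → 0 < c m
  · rw [if_pos hall]
    have hj : j < 2 * d - 1 := by
      by_contra hcon
      have h1 := hall (2 * d - 1) (by omega)
      rw [c_small (by omega) hc (by omega), if_pos (by omega)] at h1
      have h2 := choose_two_bound hr hd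
      have h3 : (((2 * d - 1 + 2).choose 2 : ℕ) : ℤ) ≤
        ((r * (2 * d - 1 - d + 2).choose 2 : ℕ) : ℤ) := by exact_mod_cast h2
      push_cast at h3
      linarith
    have h1 := hall j le_rfl
    have h2 := c_small (by omega) hc (m := j) (by omega)
    rw [h2] at h1 ⊢
    rw [hN j (by omega)]
    by_cases hdj : d ≤ j
    · rw [if_pos hdj] at h1 ⊢
      rw [if_pos hdj]
      have h3 : r * (j - d + 2).choose 2 ≤ (j + 2).choose 2 := by
        have : ((r * (j - d + 2).choose 2 : ℕ) : ℤ) ≤ (((j + 2).choose 2 : ℕ) : ℤ) := by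
          push_cast; linarith
        exact_mod_cast this
      rw [Nat.cast_sub h3]
      push_cast
      rfl
    · rw [if_neg hdj, if_neg hdj]
      simp
  · rw [if_neg hall]
    push Not at hall
    obtain ⟨m, hmj, hm⟩ := hall
    norm_cast
    by_cases hm2 : 2 * d - 1 ≤ m
    · exact finrank_K_zero h2d (hm2.trans hmj)
    · rw [c_small (by omega) hc (by omega)] at hm
      by_cases hdm : d ≤ m
      · rw [if_pos hdm] at hm
        refine finrank_K_zero (k := m) ?_ hmj
        rw [hN m (by omega), if_pos hdm]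
        refine Nat.sub_eq_zero_of_le ?_
        have : (((m + 2).choose 2 : ℕ) : ℤ) ≤ ((r * (m - d + 2).choose 2 : ℕ) : ℤ) := by
          push_cast; linarith
        exact_mod_cast this
      · exfalso
        rw [if_neg hdm, sub_zero] at hm
        have h1 : 0 < (m + 2).choose 2 := Nat.choose_pos (by omega)
        have : (0 : ℤ) < (((m + 2).choose 2 : ℕ) : ℤ) := by exact_mod_cast h1
        linarith

end

end Pool.Agent.TH750.FI3
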