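import Mathlib
import Pool.Agent.TH750.FI3.Main

/-!
# Powers of general forms in three variables, from the uniform SHGH statement

The forms of degree `d` are specialised to `d`-th powers of general linear forms.
-/

set_option autoImplicit false
set_option linter.unusedSectionVars false

namespace Pool.Agent.TH750.FI3

open Module MvPolynomial H350MG

noncomputable section

section general

variable {𝕜 : Type} [Field 𝕜] [CharZero 𝕜] {σ : Type} [Fintype σ] [DecidableEq σ]

lemma isPoly_fc_pow {r : ℕ} (d : Fin r → ℕ) (i : Fin r) (k : ℕ) : ∀ (F : MvPolynomial σ 𝕜)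
    (ψ : MvPolynomial σ 𝕜 →ₗ[𝕜] 𝕜), IsPoly (fun c : Cf σ d → 𝕜 => ψ (fc c i ^ k * F)) := by
  induction k with
  | zero => intro F ψ; simpa using H350MG.IsPoly.const _
  | succ k ih =>
    intro F ψ
    have h1 : (fun c : Cf σ d → 𝕜 => ψ (fc c i ^ (k + 1) * F)) =
        fun c : Cf σ d → 𝕜 => ∑ m : {m : σ →₀ ℕ // Finsupp.degree m = d i},
          c ⟨i, m⟩ * ψ (fc c i ^ k * (monomial m.1 1 * F)) := by
      funext c
      have h2 : fc c i ^ (k + 1) * F = ∑ m : {m : σ →₀ ℕ // Finsupp.degree m = d i},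
          c ⟨i, m⟩ • (fc c i ^ k * (monomial m.1 1 * F)) := by
        rw [pow_succ, mul_assoc]
        conv_lhs => rw [show fc c i * F = (∑ m : {m : σ →₀ ℕ // Finsupp.degree m = d i},
          c ⟨i, m⟩ • monomial m.1 1) * F from rfl]
        rw [Finset.sum_mul, Finset.mul_sum]
        refine Finset.sum_congr rfl fun m _ => ?_
        rw [smul_mul_assoc, mul_smul_comm]
      rw [h2, map_sum]
      refine Finset.sum_congr rfl fun m _ => ?_
      rw [map_smul, smul_eq_mul]
    rw [h1]
    exact IsPoly.sum _ fun m _ => (IsPoly.coord _).mul (ih _ ψ)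

/-- semicontinuity for the degree `j` part of the ideal generated by powers of forms -/
theorem generic_Jpow {r : ℕ} (d : Fin r → ℕ) (k : ℕ) (j : ℕ) (c0 : Cf σ d → 𝕜) :
    ∃ Φ : MvPolynomial (Cf σ d) 𝕜, Φ ≠ 0 ∧ ∀ c, eval c Φ ≠ 0 →
      Module.finrank 𝕜 (J (fList (fun i => d i * k) fun i => fc c0 i ^ k) j) ≤
        Module.finrank 𝕜 (J (fList (fun i => d i * k) fun i => fc c i ^ k) j) := by
  classical
  let V := (i : Fin r) → Rj 𝕜 σ (j - d i * k)
  let L : (Cf σ d → 𝕜) → V →ₗ[𝕜] MvPolynomial σ 𝕜 := fun c =>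
    ∑ i : Fin r, if d i * k ≤ j then
      (LinearMap.mulLeft 𝕜 (fc c i ^ k)) ∘ₗ (Rj 𝕜 σ (j - d i * k)).subtype ∘ₗ (LinearMap.proj i)
      else 0
  have hLx : ∀ c (x : V), L c x = ∑ i : Fin r, if d i * k ≤ j then
      fc c i ^ k * (x i : MvPolynomial σ 𝕜) else 0 := by
    intro c x
    simp only [L, LinearMap.sum_apply]
    refine Finset.sum_congr rfl fun i _ => ?_
    split_ifs <;> rfl
  have hL : ∀ (x : V) (ψ : MvPolynomial σ 𝕜 →ₗ[𝕜] 𝕜), IsPoly (fun c => ψ (L c x)) := by
    intro x ψ
    have h1 : (fun c => ψ (L c x)) = fun c : Cf σ d → 𝕜 => ∑ i : Fin r,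
        (if d i * k ≤ j then ψ (fc c i ^ k * (x i : MvPolynomial σ 𝕜)) else 0) := by
      funext c
      rw [hLx, map_sum]
      refine Finset.sum_congr rfl fun i _ => ?_
      by_cases h : d i * k ≤ j
      · rw [if_pos h, if_pos h]
      · rw [if_neg h, if_neg h, map_zero]
    rw [h1]
    refine IsPoly.sum _ fun i _ => ?_
    by_cases h : d i * k ≤ j
    · simp only [if_pos h]
      exact isPoly_fc_pow d i k _ ψ
    · simp only [if_neg h]
      exact H350MG.IsPoly.const _
  obtain ⟨Φ, h0, hΦ⟩ := generic_ker L hL c0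
  have hrange : ∀ c, LinearMap.range (L c) =
      J (fList (fun i => d i * k) fun i => fc c i ^ k) j := by
    intro c
    refine le_antisymm ?_ (J_le_of ?_)
    · rintro _ ⟨x, rfl⟩
      rw [hLx]
      refine Submodule.sum_mem _ fun i _ => ?_
      split_ifs with h
      · refine Jt_le_J (mem_fList.2 ⟨i, rfl⟩) j ?_
        unfold Jt
        rw [if_pos h]
        exact ⟨x i, (x i).2, rfl⟩
      · exact Submodule.zero_mem _
    · intro a ha
      obtain ⟨i, rfl⟩ := mem_fList.1 ha
      unfold Jt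
      split_ifs with h
      · rintro _ ⟨y, hy, rfl⟩
        refine ⟨Pi.single i ⟨y, hy⟩, ?_⟩
        rw [hLx, Finset.sum_eq_single i]
        · have h' : d i * k ≤ j := h
          rw [if_pos h', Pi.single_eq_same]; rfl
        · intro l _ hl
          split_ifs
          · rw [Pi.single_eq_of_ne hl]; simp
          · rfl
        · intro h'; exact absurd (Finset.mem_univ _) h'
      · exact bot_le
  refine ⟨Φ, h0, fun c hc => ?_⟩
  have h1 := hΦ c hc
  have h2 := LinearMap.finrank_range_add_finrank_ker (L c)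
  have h3 := LinearMap.finrank_range_add_finrank_ker (L c0)
  rw [← hrange, ← hrange]
  omega

/-- the trivial upper bound for the dimension of a graded piece of an ideal -/
lemma finrank_J_le_sm (j : ℕ) : ∀ (l : List (MvPolynomial σ 𝕜 × ℕ)),
    (∀ c ∈ l, c.1 ∈ Rj 𝕜 σ c.2) → (finrank 𝕜 (J l j) : ℤ) ≤ sm σ (l.map Prod.snd) j := by
  intro l
  induction l with
  | nil =>
    intro _
    have h0 : Module.finrank 𝕜 (J ([] : List (MvPolynomial σ 𝕜 × ℕ)) j) = 0 :=
      finrank_bot 𝕜 (MvPolynomial σ 𝕜)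
    rw [h0]
    simp [sm]
  | cons c l ih =>
    intro h
    have hc := h c (List.mem_cons_self ..)
    have hl : ∀ c' ∈ l, c'.1 ∈ Rj 𝕜 σ c'.2 := fun c' hc' => h c' (List.mem_cons_of_mem _ hc')
    have h1 := ih hl
    rw [List.map_cons, sm_cons]
    by_cases hj : c.2 ≤ j
    · rw [if_pos hj]
      have h2 := finrank_J_cons hc hl hj
      have h3 : ((Module.finrank 𝕜 (J (c :: l) j) : ℕ) : ℤ) ≤
          ((Module.finrank 𝕜 (J l j) + Module.finrank 𝕜 (Rj 𝕜 σ (j - c.2)) : ℕ) : ℤ) := by
        exact_mod_cast (Nat.le_add_right _ _).trans h2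
      push_cast at h3
      rw [finrank_Rj'] at h3
      linarith
    · rw [if_neg hj, J, Jt, if_neg hj, sup_bot_eq]
      linarith

/-- a homogeneous ideal which contains all the forms of degree `j` contains all the forms of
higher degree -/
lemma Rj_le_of_le {I : Ideal (MvPolynomial σ 𝕜)} {j j' : ℕ}
    (h : Rj 𝕜 σ j ≤ Submodule.restrictScalars 𝕜 I) (hj : j ≤ j') :
    Rj 𝕜 σ j' ≤ Submodule.restrictScalars 𝕜 I := by
  induction j', hj using Nat.le_induction with
  | base => exact h
  | succ j' _ ih =>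
    intro F hF
    have hE : ∑ i : σ, X i * pderiv i F = (j' + 1) • F := by
      have hF' := hF
      rw [mem_homogeneousSubmodule] at hF'
      exact hF'.sum_X_mul_pderiv
    have h1 : (j' + 1) • F ∈ I := by
      rw [← hE]
      refine Ideal.sum_mem _ fun i _ => Ideal.mul_mem_left _ _ ?_
      exact ih (by simpa using pderiv_hom (i := i) hF)
    have h5 : F = C (((j' : 𝕜) + 1)⁻¹) * ((j' + 1) • F) := by
      rw [nsmul_eq_mul, ← mul_assoc]
      have : (C (((j' : 𝕜) + 1)⁻¹) * ((j' + 1 : ℕ) : MvPolynomial σ 𝕜)) = 1 := by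
        have h6 : ((j' + 1 : ℕ) : MvPolynomial σ 𝕜) = C ((j' : 𝕜) + 1) := by
          push_cast; simp
        rw [h6, ← C_mul, inv_mul_cancel₀ (Nat.cast_add_one_ne_zero j'), C_1]
      rw [this, one_mul]
    rw [Submodule.restrictScalars_mem, h5]
    exact Ideal.mul_mem_left _ _ h1

end general

/-- one configuration of points which is good for all the multiplicities -/
lemma exists_a0 {r : ℕ} {d : ℕ}
    (H : ∀ m, 1 ≤ m → m ≤ d → ∃ F : MvPolynomial (Fin r × Fin 2) ℂ, F ≠ 0 ∧
      ∀ P : Fin r → Fin 2 → ℂ, eval (fun ij : Fin r × Fin 2 => P ij.1 ij.2) F ≠ 0 →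
        ∀ k : ℕ, finrank ℂ ↥(homogeneousSubmodule (Fin 3) ℂ k ⊓
          Submodule.restrictScalars ℂ (⨅ i : Fin r, (ptI (P i 0) (P i 1)) ^ m)) =
            (k + 2).choose 2 - r * (m + 1).choose 2) :
    ∃ a0 : Fin r → Fin 2 → ℂ, ∀ k, d ≤ k → k < 2 * d →
      finrank ℂ (K (ptList (fun _ => d) (lift3 a0)) k) =
        (k + 2).choose 2 - r * (k - d + 2).choose 2 := by
  classical
  choose! F hF0 hF using H
  obtain ⟨x, hx⟩ : ∃ x : Fin r × Fin 2 → ℂ, eval x (∏ m ∈ Finset.Icc 1 d, F m) ≠ 0 := by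
    by_contra hcon
    push Not at hcon
    have h1 : (∏ m ∈ Finset.Icc 1 d, F m) = 0 := by
      apply MvPolynomial.funext
      intro x; rw [hcon x, map_zero]
    rw [Finset.prod_eq_zero_iff] at h1
    obtain ⟨m, hm, h1⟩ := h1
    rw [Finset.mem_Icc] at hm
    exact hF0 m hm.1 hm.2 h1
  rw [map_prod, Finset.prod_ne_zero_iff] at hx
  refine ⟨fun i j => x (i, j), ?_⟩
  intro k hk1 hk2
  rw [K_eq _ (by omega)]
  have h1 := hF (k + 1 - d) (by omega) (by omega) (fun i j => x (i, j))
    (hx (k + 1 - d) (Finset.mem_Icc.2 ⟨by omega, by omega⟩)) k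
  rw [h1]
  have h2 : k + 1 - d + 1 = k - d + 2 := by omega
  rw [h2]

/-- `k`-th powers of `r` general forms of degree `d` in three variables: each graded piece of the
ideal is at least as large as for any `r` forms of degree `d k` -/
theorem main_forms {r : ℕ} (hr : 4 ≤ r) {d k : ℕ} (hd : 1 ≤ d) (hk : 1 ≤ k)
    (H : ∀ m, 1 ≤ m → m ≤ d * k → ∃ F : MvPolynomial (Fin r × Fin 2) ℂ, F ≠ 0 ∧
      ∀ P : Fin r → Fin 2 → ℂ, eval (fun ij : Fin r × Fin 2 => P ij.1 ij.2) F ≠ 0 →
        ∀ k : ℕ, finrank ℂ ↥(homogeneousSubmodule (Fin 3) ℂ k ⊓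
          Submodule.restrictScalars ℂ (⨅ i : Fin r, (ptI (P i 0) (P i 1)) ^ m)) =
            (k + 2).choose 2 - r * (m + 1).choose 2) :
      ∃ P : MvPolynomial (Fin r × (Fin 3 →₀ ℕ)) ℂ,
        (∃ g₀ : Fin r → MvPolynomial (Fin 3) ℂ,
            (∀ i, (g₀ i).IsHomogeneous d) ∧
            MvPolynomial.eval
              (fun p : Fin r × (Fin 3 →₀ ℕ) => MvPolynomial.coeff p.2 (g₀ p.1)) P ≠ 0) ∧
        ∀ g : Fin r → MvPolynomial (Fin 3) ℂ,
          (∀ i, (g i).IsHomogeneous d) →
          MvPolynomial.eval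
              (fun p : Fin r × (Fin 3 →₀ ℕ) => MvPolynomial.coeff p.2 (g p.1)) P ≠ 0 →
          (∀ j : ℕ, j < 2 * (d * k) →
            (finrank ℂ (J (fList (fun _ => d * k) fun i => g i ^ k) j) : ℤ) =
              gj (Fin 3) j - (((j + 2).choose 2 -
                (if d * k ≤ j then r * (j - d * k + 2).choose 2 else 0) : ℕ) : ℤ)) ∧
          (∀ j : ℕ, 2 * (d * k) - 1 ≤ j → Rj ℂ (Fin 3) j ≤
            Submodule.restrictScalars ℂ (Ideal.span (Set.range fun i => g i ^ k))) ∧
          ∀ h : Fin r → MvPolynomial (Fin 3) ℂ,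
            (∀ i, (h i).IsHomogeneous (d * k)) →
            ∀ j : ℕ,
              Module.finrank ℂ
                  (↥(MvPolynomial.homogeneousSubmodule (Fin 3) ℂ j ⊓
                    (Ideal.span (Set.range h)).restrictScalars ℂ)) ≤
                Module.finrank ℂ
                  (↥(MvPolynomial.homogeneousSubmodule (Fin 3) ℂ j ⊓
                    (Ideal.span (Set.range (fun i => g i ^ k))).restrictScalars ℂ)) := by
  classical
  obtain ⟨e, he⟩ : ∃ e, e = d * k := ⟨_, rfl⟩
  have he1 : 1 ≤ e := by rw [he]; exact Nat.mul_pos hd hk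
  rw [← he] at H
  obtain ⟨a0, ha0⟩ := exists_a0 H
  set P0 : Fin r × Fin 3 → ℂ := lift3 a0 with hP0
  -- the dimensions for the powers of linear forms
  have hK0 : ∀ j < 2 * e, finrank ℂ (K (ptList (fun _ => e) P0) j) =
      (j + 2).choose 2 - (if e ≤ j then r * (j - e + 2).choose 2 else 0) :=
    fun j hj => exact ha0 (fun i _ => le_rfl) hj
  have hJ0 : ∀ j < 2 * e, (finrank ℂ (J (powList (fun _ => e) P0) j) : ℤ) =
      gj (Fin 3) j - (((j + 2).choose 2 - (if e ≤ j then r * (j - e + 2).choose 2 else 0) : ℕ) : ℤ) := by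
    intro j hj
    have h1 := Pool.Agent.TH130.FP.qd_powList (fun _ : Fin r => e) P0 j
    rw [hK0 j hj] at h1
    unfold qd at h1
    linarith
  -- specialisation
  choose Φ hΦ0 hΦ using fun j => generic_Jpow (fun _ : Fin r => d) k j (c0 (fun _ : Fin r => d) P0)
  have hlist : (fList (fun i : Fin r => (fun _ : Fin r => d) i * k)
      fun i => fc (c0 (fun _ : Fin r => d) P0) i ^ k) = powList (fun _ => e) P0 := by
    unfold fList powList
    congr 1
    funext i
    change (fc (c0 (fun _ : Fin r => d) P0) i ^ k, d * k) = (lin (fun l => P0 (i, l)) ^ e, e)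
    rw [fc_c0, ← pow_mul, he]
  let Φ1 : MvPolynomial (Cf (Fin 3) fun _ : Fin r => d) ℂ := ∏ j ∈ Finset.range (2 * e), Φ j
  have hΦ1 : Φ1 ≠ 0 := Finset.prod_ne_zero_iff.2 fun j _ => hΦ0 j
  let ι : (Cf (Fin 3) fun _ : Fin r => d) → Fin r × (Fin 3 →₀ ℕ) := fun s => (s.1, s.2.1)
  have hev : ∀ g : Fin r → MvPolynomial (Fin 3) ℂ,
      eval (fun p : Fin r × (Fin 3 →₀ ℕ) => MvPolynomial.coeff p.2 (g p.1)) (rename ι Φ1) =
        eval (fun s : Cf (Fin 3) (fun _ : Fin r => d) => (g s.1).coeff s.2.1) Φ1 := by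
    intro g
    rw [eval_rename]
    rfl
  refine ⟨rename ι Φ1, ?_, ?_⟩
  · obtain ⟨c, hc⟩ : ∃ c : (Cf (Fin 3) fun _ : Fin r => d) → ℂ, eval c Φ1 ≠ 0 := by
      by_contra hcon
      push Not at hcon
      apply hΦ1
      apply MvPolynomial.funext
      intro x; rw [hcon x, map_zero]
    refine ⟨fun i => fc c i, fun i => fc_hom c i, ?_⟩
    rw [hev]
    have h1 : (fun s : Cf (Fin 3) (fun _ : Fin r => d) => (fc c s.1).coeff s.2.1) = c := by
      funext s
      obtain ⟨i, m⟩ := s
      unfold fc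
      rw [coeff_sum, Finset.sum_eq_single m]
      · rw [coeff_smul, coeff_monomial, if_pos rfl, smul_eq_mul, mul_one]
      · intro m' _ hm'
        rw [coeff_smul, coeff_monomial, if_neg, smul_zero]
        intro h; exact hm' (Subtype.ext h)
      · intro h; exact absurd (Finset.mem_univ _) h
    rw [h1]
    exact hc
  · intro g hg hgP
    rw [hev] at hgP
    have hge : ∀ j < 2 * e, finrank ℂ (J (powList (fun _ => e) P0) j) ≤
        finrank ℂ (J (fList (fun _ => e) fun i => g i ^ k) j) := by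
      intro j hj
      have h1 := hΦ j (fun s : Cf (Fin 3) (fun _ : Fin r => d) => (g s.1).coeff s.2.1) (by
        intro h
        apply hgP
        change eval _ (∏ j ∈ Finset.range (2 * e), Φ j) = 0
        rw [map_prod]
        exact Finset.prod_eq_zero (Finset.mem_range.2 hj) h)
      rw [hlist] at h1
      have h2 : (fList (fun i : Fin r => (fun _ : Fin r => d) i * k)
          fun i => fc (fun s : Cf (Fin 3) (fun _ : Fin r => d) => (g s.1).coeff s.2.1) i ^ k) =
          fList (fun _ => e) fun i => g i ^ k := by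
        unfold fList
        congr 1
        funext i
        change (fc (fun s : Cf (Fin 3) (fun _ : Fin r => d) => (g s.1).coeff s.2.1) i ^ k, d * k) =
          (g i ^ k, e)
        rw [fc_coeff (d := fun _ : Fin r => d) hg i, he]
      rw [h2] at h1
      exact h1
    have hle : ∀ f : Fin r → MvPolynomial (Fin 3) ℂ, (∀ i, (f i).IsHomogeneous e) →
        ∀ j < 2 * e, finrank ℂ (J (fList (fun _ => e) f) j) ≤
          finrank ℂ (J (powList (fun _ => e) P0) j) := by
      intro f hf j hj
      have hgood : ∀ c ∈ fList (fun _ : Fin r => e) f, c.1 ∈ Rj ℂ (Fin 3) c.2 := by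
        intro c hc
        obtain ⟨i, rfl⟩ := mem_fList.1 hc
        exact hf i
      have h1 := finrank_J_le_sm j (fList (fun _ : Fin r => e) f) hgood
      have h2 : (fList (fun _ : Fin r => e) f).map Prod.snd = List.ofFn fun _ : Fin r => e := by
        unfold fList; rw [List.map_ofFn]; rfl
      rw [h2, sm_ofFn, Finset.sum_const, Finset.card_univ, Fintype.card_fin, nsmul_eq_mul] at h1
      have h3 : (finrank ℂ (J (fList (fun _ => e) f) j) : ℤ) ≤ gj (Fin 3) j := by
        rw [← finrank_Rj' (𝕜 := ℂ)]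
        exact_mod_cast Submodule.finrank_mono (J_le hgood j)
      have h4 := hJ0 j hj
      have h5 : (finrank ℂ (J (fList (fun _ => e) f) j) : ℤ) ≤
          (finrank ℂ (J (powList (fun _ => e) P0) j) : ℤ) := by
        rw [h4]
        rw [gj3] at h3 ⊢
        by_cases hej : e ≤ j
        · rw [if_pos hej] at h1 ⊢
          rw [gj3] at h1
          rcases le_total ((j + 2).choose 2) (r * (j - e + 2).choose 2) with h6 | h6
          · rw [Nat.sub_eq_zero_of_le h6, Nat.cast_zero, sub_zero]
            exact h3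
          · rw [Nat.cast_sub h6]
            push_cast
            linarith
        · rw [if_neg hej] at h1 ⊢
          rw [tsub_zero, sub_self]
          linarith
      exact_mod_cast h5
    have hgk : ∀ i, (g i ^ k).IsHomogeneous e := by
      intro i; rw [he]; exact (hg i).pow k
    have hEq : ∀ j < 2 * e, (finrank ℂ (J (fList (fun _ => e) fun i => g i ^ k) j) : ℤ) =
        gj (Fin 3) j - (((j + 2).choose 2 -
          (if e ≤ j then r * (j - e + 2).choose 2 else 0) : ℕ) : ℤ) := by
      intro j hj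
      rw [← hJ0 j hj]
      exact_mod_cast le_antisymm (hle _ hgk j hj) (hge j hj)
    have hspan : ∀ (f : Fin r → MvPolynomial (Fin 3) ℂ) (_ : ∀ i, (f i).IsHomogeneous e) (j : ℕ),
        MvPolynomial.homogeneousSubmodule (Fin 3) ℂ j ⊓
          (Ideal.span (Set.range f)).restrictScalars ℂ = J (fList (fun _ => e) f) j := by
      intro f hf j
      rw [inf_comm]
      exact span_inf_eq (d := fun _ : Fin r => e) hf j
    have htop0 : Rj ℂ (Fin 3) (2 * e - 1) ≤
        Submodule.restrictScalars ℂ (Ideal.span (Set.range fun i => g i ^ k)) := by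
      have h1 := hEq (2 * e - 1) (by omega)
      rw [if_pos (by omega), Nat.sub_eq_zero_of_le (choose_two_bound hr he1), Nat.cast_zero,
        sub_zero, ← finrank_Rj' (𝕜 := ℂ)] at h1
      have h2 : J (fList (fun _ => e) fun i => g i ^ k) (2 * e - 1) = Rj ℂ (Fin 3) (2 * e - 1) := by
        refine Submodule.eq_of_le_of_finrank_eq ?_ (by exact_mod_cast h1)
        refine J_le ?_ _
        intro c hc
        obtain ⟨i, rfl⟩ := mem_fList.1 hc
        exact hgk i
      rw [← h2, ← hspan _ hgk]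
      exact inf_le_right
    have htop : ∀ j : ℕ, 2 * e - 1 ≤ j → Rj ℂ (Fin 3) j ≤
        Submodule.restrictScalars ℂ (Ideal.span (Set.range fun i => g i ^ k)) :=
      fun j hj => Rj_le_of_le htop0 hj
    rw [← he]
    refine ⟨hEq, htop, ?_⟩
    intro f hf j
    rcases lt_or_ge j (2 * e) with hj | hj
    · rw [hspan f hf, hspan _ hgk]
      exact (hle f hf j hj).trans (hge j hj)
    · have h1 := htop j (by omega)
      have : FiniteDimensional ℂ ↥(MvPolynomial.homogeneousSubmodule (Fin 3) ℂ j ⊓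
          (Ideal.span (Set.range (fun i => g i ^ k))).restrictScalars ℂ) :=
        Submodule.finiteDimensional_of_le
          (S₂ := homogeneousSubmodule (Fin 3) ℂ j) inf_le_left
      refine Submodule.finrank_mono ?_
      exact le_inf inf_le_left (inf_le_left.trans h1)

end

end Pool.Agent.TH750.FI3
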