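import Mathlib
import Pool.Agent.TH760.EN.Asm
import Pool.Agent.TH864.SX.Final13
import Pool.Agent.TH469.SX.TwentyOne
import Pool.Agent.TH750.FI3.Main

/-!
The numbers of general points for which the uniform systems are known to have the expected dimension
for all the multiplicities: `r ≥ 37`, `r = 13`, `r = 21`.
-/

set_option autoImplicit false

namespace Pool.Agent.TH750.FI3

open MvPolynomial

theorem uniform_input {r : ℕ} (hr : 37 ≤ r ∨ r = 13 ∨ r = 21) {m : ℕ} (hm : 1 ≤ m) :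
    ∃ F : MvPolynomial (Fin r × Fin 2) ℂ, F ≠ 0 ∧
      ∀ P : Fin r → Fin 2 → ℂ,
        MvPolynomial.eval (fun ij : Fin r × Fin 2 => P ij.1 ij.2) F ≠ 0 →
        ∀ k : ℕ, Module.finrank ℂ ↥(MvPolynomial.homogeneousSubmodule (Fin 3) ℂ k ⊓
          Submodule.restrictScalars ℂ
            (⨅ i : Fin r, (Pool.Agent.TH750.FI3.ptI (P i 0) (P i 1)) ^ m)) =
            (k + 2).choose 2 - r * (m + 1).choose 2 := by
  have key : ∃ F : MvPolynomial (Fin r × Fin 2) ℚ, F ≠ 0 ∧
      ∀ P : Fin r → Fin 2 → ℂ,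
        MvPolynomial.aeval (fun ij : Fin r × Fin 2 => P ij.1 ij.2) F ≠ 0 →
        ∀ k, H932R3.ExpDim ℂ (fun _ => m) P k := by
    rcases hr with hr | rfl | rfl
    · exact TH760.EN.expDim37 (L := ℂ) hr hm
    · obtain ⟨F, hF, hF'⟩ := TH864.SX.uniform13 m
      exact ⟨F, hF, fun P hP k => hF' P hP k⟩
    · obtain ⟨F, hF, hF'⟩ := TH469.SX.twentyone m
      exact ⟨F, hF, fun P hP k => hF' P hP k⟩
  obtain ⟨F, hF, hF'⟩ := key
  refine ⟨F.map (algebraMap ℚ ℂ), H932R3.map_ne_zero_of hF, fun P hP k => ?_⟩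
  rw [MvPolynomial.eval_map] at hP
  have h1 := hF' P hP k
  unfold H932R3.ExpDim at h1
  rw [Finset.sum_const, Finset.card_univ, Fintype.card_fin, smul_eq_mul] at h1
  exact h1

end Pool.Agent.TH750.FI3
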